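import Pool.Agent.H15.JD.Qv
import Pool.Graph.R_pool_sql_team_seeded_3dad9d7b.NH15.FQ.Cnt
import Pool.Graph.R_pool_sql_team_seeded_3dad9d7b.NH18.QP.B5

/-! For EVERY large `M`, for almost all primes `m` (in dense subsets of dyadic intervals) and for ALL `n` with
`⌊n / m⌋ = M`: the primes `p < n` with `⌊(n - p) / m⌋` in an ARBITRARY set `Q`, in particular with
`q = ⌊(n - p) / m⌋` prime and `q ^ 2 - 2 = P_5`. -/

set_option autoImplicit false

namespace Pool.Agent.Results.MP_4011c3_nt.EveryQuotient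
open Finset Filter Pool.Agent.H15.JD

/-- the pair `(m, n)` is admissible -/
def Admissible (m n : ℕ) : Prop := 1 ≤ m ∧ 2 * m + 1 < n ∧ (m = 1 ∧ n % 2 = 0 ∨ m = 3 ∧ n % 6 ≠ 1 ∨ m = 2 ∨ 4 ≤ m)

/-- `p` and `q = ⌊(n - p) / m⌋` are primes; `q ^ 2 - 2` has at most five prime factors (counted with multiplicity),
all of them greater than `(n / m) ^ (1/9)` -/
def Rep (m n p : ℕ) : Prop :=
  p.Prime ∧ ((n - p) / m).Prime ∧ (((n - p) / m) ^ 2 - 2).primeFactorsList.length ≤ 5 ∧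
    ∀ ℓ : ℕ, ℓ.Prime → ℓ ∣ ((n - p) / m) ^ 2 - 2 → n < m * ℓ ^ 9

theorem AN : Pool.Agent.NH15.FQ.AN := Pool.Agent.NH18.QP.almostN 1 le_rfl

/-- the asymptotic formula -/
theorem formula (B : ℕ) : ∃ C M₀ : ℕ, ∀ (M : ℕ) (P : ℝ) (A Q : Finset ℕ), M₀ ≤ M →
    Real.log M ^ C ≤ P → P ≤ (M : ℝ) ^ B → (∀ a ∈ A, a.Prime ∧ P / 2 < a ∧ (a : ℝ) ≤ P) → P / Real.log M ^ B ≤ A.card →
    (∀ q ∈ Q, 1 ≤ q ∧ 2 * q ≤ M) →
    ∃ E ⊆ A, (E.card : ℝ) ≤ A.card / Real.log M ^ B ∧ ∀ m ∈ A, m ∉ E → ∀ n : ℕ, n / m = M →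
      |∑ p ∈ (range n).filter (fun p => p.Prime ∧ (n - p) / m ∈ Q), Real.log (p : ℝ) - m * Q.card| ≤
        m * M / Real.log M ^ B := by
  obtain ⟨C, M₀, h⟩ := shifts B
  refine ⟨C, M₀ + 2, ?_⟩
  intro M P A Q hM hCP hPM hA hcard hQ
  obtain ⟨E, hE, hEc, hEb⟩ := h M P A Q (by omega) hCP hPM hA hcard hQ
  refine ⟨E, hE, hEc, ?_⟩
  intro m hm hmE n hn
  have hm1 := (hA m hm).1.pos
  have hm0 : (0 : ℝ) < m := by exact_mod_cast hm1
  have h0 : m * M ≤ n := by rw [← hn]; exact Nat.mul_div_le n m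
  have h1 : n < m * M + m := by
    have := Nat.lt_mul_div_succ n hm1
    rw [hn] at this
    linarith [mul_add m M 1, this]
  rw [quot_sum n m M Q hm1 hn (fun q hq => by have := hQ q hq; omega)]
  apply hEb m hm hmE
  · positivity
  · rw [div_lt_one hm0]
    exact_mod_cast (by omega : n - m * M < m)

/-- **Every quotient.**

(1) For every `B` there are `C` and `M₀` such that for EVERY `M ≥ M₀`, all `P` with `(log M)^C ≤ P ≤ M^B`, every set `A` of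
at least `P / (log M)^B` primes in `(P / 2, P]` and EVERY set `Q` of integers in `[1, M / 2]`: for all but
`|A| / (log M)^B` of the `m` in `A`, and ALL `n` with `⌊n / m⌋ = M`, the sum of `log p` over the primes `p < n` with
`⌊(n - p) / m⌋ ∈ Q` is `m |Q|`, with an error of at most `m M / (log M)^B`.

(2) There is `c > 0` such that for every `B` there are `C` and `M₀` such that for EVERY `M ≥ M₀` and all such `P`, `A`: for all
but `|A| / (log M)^B` of the `m` in `A`, and ALL `n` with `⌊n / m⌋ = M`, the pair `(m, n)` is admissible and there are at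
least `c n / (log n (log M)^2)` primes `p < n` such that `q = ⌊(n - p) / m⌋` is prime and `q ^ 2 - 2` has at most five
prime factors, all greater than `(n / m) ^ (1/9)`. -/
theorem result :
    (∀ B : ℕ, ∃ C M₀ : ℕ, ∀ (M : ℕ) (P : ℝ) (A Q : Finset ℕ), M₀ ≤ M →
      Real.log M ^ C ≤ P → P ≤ (M : ℝ) ^ B → (∀ a ∈ A, a.Prime ∧ P / 2 < a ∧ (a : ℝ) ≤ P) → P / Real.log M ^ B ≤ A.card →
      (∀ q ∈ Q, 1 ≤ q ∧ 2 * q ≤ M) →
      ∃ E ⊆ A, (E.card : ℝ) ≤ A.card / Real.log M ^ B ∧ ∀ m ∈ A, m ∉ E → ∀ n : ℕ, n / m = M →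
        |∑ p ∈ (range n).filter (fun p => p.Prime ∧ (n - p) / m ∈ Q), Real.log (p : ℝ) - m * Q.card| ≤
          m * M / Real.log M ^ B) ∧
    ∃ c : ℝ, 0 < c ∧ ∀ B : ℕ, ∃ C M₀ : ℕ, ∀ (M : ℕ) (P : ℝ) (A : Finset ℕ), M₀ ≤ M →
      Real.log M ^ C ≤ P → P ≤ (M : ℝ) ^ B → (∀ a ∈ A, a.Prime ∧ P / 2 < a ∧ (a : ℝ) ≤ P) → P / Real.log M ^ B ≤ A.card →
      ∃ E ⊆ A, (E.card : ℝ) ≤ A.card / Real.log M ^ B ∧ ∀ m ∈ A, m ∉ E → ∀ n : ℕ, n / m = M →
        Admissible m n ∧ c * n / (Real.log n * Real.log M ^ 2) ≤ ({p : ℕ | p < n ∧ Rep m n p}.ncard : ℝ) := by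
  classical
  refine ⟨formula, ?_⟩
  obtain ⟨c₀, hc₀, hlow⟩ := Pool.Agent.NH15.FQ.QF_low AN
  refine ⟨c₀ / 12, by positivity, ?_⟩
  intro B
  obtain ⟨C, M₁, hF⟩ := formula (B + 3)
  have hlog : Tendsto (fun M : ℕ => Real.log (M : ℝ)) atTop atTop := Real.tendsto_log_atTop.comp tendsto_natCast_atTop_atTop
  have hhalf : Tendsto (fun M : ℕ => M / 2) atTop atTop := Nat.tendsto_div_const_atTop (by norm_num)
  have hpow : Tendsto (fun M : ℕ => ((M : ℝ) / 3) ^ ((41 : ℝ) / 400)) atTop atTop :=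
    (tendsto_rpow_atTop (by norm_num)).comp (tendsto_natCast_atTop_atTop.atTop_div_const (by norm_num))
  have hev : ∀ᶠ M : ℕ in atTop, (M₁ ≤ M ∧ 6 ≤ M) ∧ (8 ≤ Real.log M ∧ 6 / c₀ ≤ Real.log M) ∧
      (c₀ * (((M / 2 : ℕ) : ℝ) / Real.log ((M / 2 : ℕ) : ℝ) ^ 2) ≤ ((Pool.Agent.NH15.FQ.QF (M / 2)).card : ℝ)) ∧
      6 ≤ ((M : ℝ) / 3) ^ ((41 : ℝ) / 400) :=
    ((eventually_ge_atTop _).and (eventually_ge_atTop _)).and
      (((hlog.eventually_ge_atTop _).and (hlog.eventually_ge_atTop _)).and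
        ((hhalf.eventually hlow).and (hpow.eventually_ge_atTop _)))
  obtain ⟨M₀, hM₀⟩ := eventually_atTop.1 hev
  refine ⟨C + 1, M₀, ?_⟩
  intro M P A hM hCP hPM hA hcard
  obtain ⟨⟨hE1, hE2⟩, ⟨hE3, hE4⟩, hE5, hE6⟩ := hM₀ M hM
  obtain ⟨L, hL⟩ : ∃ L : ℝ, L = Real.log M := ⟨_, rfl⟩
  have hFM := hF M P A (Pool.Agent.NH15.FQ.QF (M / 2)) hE1
  rw [← hL] at hCP hcard hE3 hE4 hFM ⊢
  have hL0 : 0 < L := by linarith
  have hL1 : 1 ≤ L := by linarith
  have hM0 : (0 : ℝ) < M := by exact_mod_cast (by omega : 0 < M)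
  have hM6 : (6 : ℝ) ≤ M := by exact_mod_cast hE2
  have hP0 : 0 < P := lt_of_lt_of_le (by positivity) hCP
  obtain ⟨E, hE, hEc, hEb⟩ := hFM ((pow_le_pow_right₀ hL1 (by omega)).trans hCP)
    (hPM.trans (pow_le_pow_right₀ (by linarith) (by omega))) hA
    ((div_le_div_of_nonneg_left hP0.le (by positivity) (pow_le_pow_right₀ hL1 (by omega))).trans hcard)
    (by
      intro q hq
      unfold Pool.Agent.NH15.FQ.QF at hq
      rw [mem_filter, mem_Icc] at hq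
      omega)
  refine ⟨E, hE, hEc.trans (div_le_div_of_nonneg_left (Nat.cast_nonneg _) (by positivity) (pow_le_pow_right₀ hL1 (by omega))), ?_⟩
  intro m hm hmE n hn
  have hm1 := (hA m hm).1.pos
  have hm0 : (0 : ℝ) < m := by exact_mod_cast hm1
  have h0 : m * M ≤ n := by rw [← hn]; exact Nat.mul_div_le n m
  have h1 : n < m * M + m := by
    have := Nat.lt_mul_div_succ n hm1
    rw [hn] at this
    linarith [mul_add m M 1, this]
  have h0' : (m : ℝ) * M ≤ n := by exact_mod_cast h0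
  have h1' : (n : ℝ) < m * M + m := by exact_mod_cast h1
  -- admissible
  have hm2 : (4 : ℝ) < m := by
    have h2 := (hA m hm).2.1
    have h3 : 8 ≤ P := by
      refine le_trans ?_ hCP
      calc (8 : ℝ) ≤ L := hE3
        _ = L ^ 1 := (pow_one L).symm
        _ ≤ L ^ (C + 1) := pow_le_pow_right₀ hL1 (by omega)
    linarith
  have hm3 : 4 < m := by exact_mod_cast hm2
  have hmM : m * 6 ≤ m * M := Nat.mul_le_mul_left m hE2
  refine ⟨⟨hm1, by omega, Or.inr (Or.inr (Or.inr (by omega)))⟩, ?_⟩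
  obtain ⟨Q, hQ⟩ : ∃ Q : Finset ℕ, Q = Pool.Agent.NH15.FQ.QF (M / 2) := ⟨_, rfl⟩
  have h2 := hEb m hm hmE n hn
  rw [← hQ] at h2 hE5
  obtain ⟨F, hFd⟩ : ∃ F : Finset ℕ, F = (range n).filter (fun p => p.Prime ∧ (n - p) / m ∈ Q) := ⟨_, rfl⟩
  rw [← hFd] at h2
  have hnR : (24 : ℝ) ≤ n := by
    have : 24 ≤ n := by omega
    exact_mod_cast this
  have hlogn : 0 < Real.log n := Real.log_pos (by linarith)
  -- the sum over `F`
  have hsum : ∑ p ∈ F, Real.log (p : ℝ) ≤ F.card * Real.log n := by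
    rw [← nsmul_eq_mul]
    apply sum_le_card_nsmul
    intro p hp
    rw [hFd, mem_filter, mem_range] at hp
    apply Real.log_le_log
    · exact_mod_cast hp.2.1.pos
    · exact_mod_cast hp.1.le
  -- the cardinality of `Q`
  have hM'1 : (M : ℝ) / 3 ≤ ((M / 2 : ℕ) : ℝ) := by
    have h3 : M ≤ 2 * (M / 2) + 1 := by omega
    have h4 : (M : ℝ) ≤ 2 * ((M / 2 : ℕ) : ℝ) + 1 := by exact_mod_cast h3
    linarith
  have hM'2 : ((M / 2 : ℕ) : ℝ) ≤ M := by exact_mod_cast Nat.div_le_self M 2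
  have hlogM' : 0 < Real.log ((M / 2 : ℕ) : ℝ) := Real.log_pos (by linarith)
  have hlogM'2 : Real.log ((M / 2 : ℕ) : ℝ) ≤ L := by rw [hL]; exact Real.log_le_log (by linarith) hM'2
  have hQc : c₀ * (M / 3 / L ^ 2) ≤ Q.card := by
    refine le_trans ?_ hE5
    apply mul_le_mul_of_nonneg_left _ hc₀.le
    apply div_le_div₀ (by positivity) hM'1 (by positivity)
    exact pow_le_pow_left₀ hlogM'.le hlogM'2 2
  have h3 : (m : ℝ) * M * c₀ / (6 * L ^ 2) ≤ F.card * Real.log n := by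
    have h4 : (m : ℝ) * M / L ^ (B + 3) ≤ m * M * c₀ / (6 * L ^ 2) := by
      have h5 : (m : ℝ) * M / L ^ (B + 3) ≤ m * M / L ^ 3 :=
        div_le_div_of_nonneg_left (by positivity) (by positivity) (pow_le_pow_right₀ hL1 (by omega))
      refine h5.trans ?_
      rw [div_le_div_iff₀ (by positivity) (by positivity)]
      have h6 : 6 ≤ L * c₀ := by rwa [div_le_iff₀ hc₀] at hE4
      have h7 : 0 ≤ (m : ℝ) * M * L ^ 2 := by positivity
      nlinarith only [mul_le_mul_of_nonneg_left h6 h7]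
    have h8 := (abs_le.1 h2).1
    have h9 : (m : ℝ) * (c₀ * (M / 3 / L ^ 2)) ≤ m * Q.card := mul_le_mul_of_nonneg_left hQc hm0.le
    have e : (m : ℝ) * (c₀ * (M / 3 / L ^ 2)) = 2 * (m * M * c₀ / (6 * L ^ 2)) := by field_simp; ring
    linarith
  have h4 : c₀ / 12 * n / (Real.log n * L ^ 2) ≤ F.card := by
    have h5 : (n : ℝ) ≤ 2 * (m * M) := by nlinarith only [h1', hm0, hM6]
    rw [div_le_iff₀ (by positivity)]
    rw [div_le_iff₀ (by positivity)] at h3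
    have h6 : c₀ * (n : ℝ) ≤ c₀ * (2 * (m * M)) := mul_le_mul_of_nonneg_left h5 hc₀.le
    nlinarith only [h3, h6]
  refine h4.trans ?_
  have hfin : {p : ℕ | p < n ∧ Rep m n p}.Finite := (Set.finite_Iio n).subset fun p hp => hp.1
  have hsub : (F : Set ℕ) ⊆ {p : ℕ | p < n ∧ Rep m n p} := by
    intro p hp
    rw [mem_coe, hFd, mem_filter, mem_range] at hp
    obtain ⟨h5, h6, h7⟩ := hp
    rw [hQ] at h7
    unfold Pool.Agent.NH15.FQ.QF at h7
    rw [mem_filter] at h7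
    obtain ⟨h8, h9, h10⟩ := h7.2
    refine ⟨h5, h6, h8, h9, ?_⟩
    intro ℓ hℓ hd
    have h11 := h10 ℓ hℓ hd
    have h12 : (M : ℝ) + 1 ≤ (ℓ : ℝ) ^ 9 := by
      have h13 : (((M / 2 : ℕ) : ℝ) ^ ((49 : ℝ) / 400)) ^ 9 ≤ (ℓ : ℝ) ^ 9 := pow_le_pow_left₀ (by positivity) h11 9
      refine le_trans ?_ h13
      rw [← Real.rpow_natCast, ← Real.rpow_mul (Nat.cast_nonneg _)]
      have h14 : ((M : ℝ) / 3) ^ ((49 : ℝ) / 400 * (9 : ℕ)) ≤ ((M / 2 : ℕ) : ℝ) ^ ((49 : ℝ) / 400 * (9 : ℕ)) :=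
        Real.rpow_le_rpow (by positivity) hM'1 (by positivity)
      refine le_trans ?_ h14
      have e : (49 : ℝ) / 400 * (9 : ℕ) = 1 + 41 / 400 := by norm_num
      rw [e, Real.rpow_add (by positivity), Real.rpow_one]
      have h15 : (M : ℝ) / 3 * 6 ≤ M / 3 * (M / 3) ^ ((41 : ℝ) / 400) := mul_le_mul_of_nonneg_left hE6 (by positivity)
      linarith
    have h13 : (n : ℝ) < m * (ℓ : ℝ) ^ 9 := by
      calc (n : ℝ) < m * M + m := h1'
        _ = m * (M + 1) := by ring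
        _ ≤ m * (ℓ : ℝ) ^ 9 := mul_le_mul_of_nonneg_left h12 hm0.le
    exact_mod_cast h13
  have h5 := Set.ncard_le_ncard hsub hfin
  rw [Set.ncard_coe_finset] at h5
  exact_mod_cast h5

end Pool.Agent.Results.MP_4011c3_nt.EveryQuotient
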