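import Mathlib
import Pool.Agent.H72.CG.RealG
import Pool.Graph.R_seed8.H661R3.OP.PAP
import Pool.Graph.R_pool_sql_team_seeded_1acbe0a2.Y879.GL.Three

/-!
# Almost primes `p`, `q = ⌊(n - p) / m⌋`, `q ^ 2 - 2` in all short intervals: arbitrary labels of primes

Give EVERY prime a label in a finite abelian group `G`, in an arbitrary way, and let the label of a
positive integer be the sum of the labels of its prime factors (with multiplicity). Let `N = |G|`, or
let `G` have exponent `2` and `|G| ≤ 2 ^ (N - 1)`, and let `θ > 1 - 1 / N`. We show: for EVERY admissible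
pair `(m, n)` with `m (2 x + 1) < n ≤ x ^ E`, every element of `G` is the label of at least
`x ^ (1 - N (1 - θ) - ε)` integers `q` in `(x, x + x ^ θ]` for which there is a `p < n` with
`q = ⌊(n - p) / m⌋` such that `p`, `q` and `q ^ 2 - 2` are products of at most `R` primes, all larger than
`x ^ δ`; `R`, `δ` and the bound for `x` do not depend on `m` and `n`. The only condition is the obvious
one that the labels of the primes `p ≡ 1` modulo a certain `q₀`, `x ^ δ < p ≤ x ^ (2 δ)`, generate `G`.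
For `G = ZMod M` and the label `1` of all primes: the number of prime factors of `q` lies in ANY given
class modulo `M`, for instance in the class of `1`, as for the primes which one looks for.

Method (`Pool/Agent/H72/CG`): for rough numbers `V` which are close to one another, a sieve gives many `w`
such that ALL the `V w` are such `q`, and the labels of the `V w` are all the elements of `G` if the
labels of the `V` are. Such families of `V` are products of pairs `{U, U'}` of neighbouring rough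
numbers: for each proper subgroup `H` of `G` some pair has labels which differ modulo `H`, since
otherwise the label modulo `H` would be the same for all the rough numbers from `U` to `p U`; and if
`T ≠ G` is the set of the labels of a family, `H` its stabiliser and the labels `s, s'` of a pair differ
modulo `H`, then `T + {s, s'}` is larger than `T` (and twice as large as `T` if `G` has exponent `2`).

From the library: the Brun-Hooley sieve, the idea of the chain of neighbouring rough numbers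
(`Pool.Agent.W5h75.SP`, for the group with two elements), a prime `≡ 1` modulo `q` in `(Y, Y ^ 2]`, and
the choice of the remainder `s` of `n - p` modulo `m` (`Pool.Agent.Y879.GL.exists_rem`).
-/

set_option autoImplicit false

open Finset

namespace Pool.Agent.Results.MP_4011c3_nt.LabelledQuotients

open Pool.Agent.H72.CG

/-- The admissible pairs of the problem. -/
def Admissible (m n : ℕ) : Prop :=
  1 ≤ m ∧ 2 * m + 1 < n ∧ ((m = 1 ∧ Even n) ∨ (m = 3 ∧ n % 6 ≠ 1) ∨ m = 2 ∨ 4 ≤ m)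

/-- `z > 1` is a product of at most `R` primes, all larger than `y`. -/
def AlmostPrime (R : ℕ) (y : ℝ) (z : ℕ) : Prop :=
  1 < z ∧ z.primeFactorsList.length ≤ R ∧ ∀ l : ℕ, l.Prime → l ∣ z → y < l

/-- The `q` in `(x, x + x ^ θ]` with `q = ⌊(n - p) / m⌋` for a `p < n` such that `p`, `q` and `q ^ 2 - 2` are
products of at most `R` primes, all larger than `x ^ δ`. -/
def Quotients (m n : ℕ) (θ δ : ℝ) (R : ℕ) (x : ℝ) : Set ℕ :=
  {q : ℕ | x < q ∧ (q : ℝ) ≤ x + x ^ θ ∧ ∃ p : ℕ, p < n ∧ (n - p) / m = q ∧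
    AlmostPrime R (x ^ δ) p ∧ AlmostPrime R (x ^ δ) q ∧ AlmostPrime R (x ^ δ) (q ^ 2 - 2)}

theorem pow_length_le (y : ℝ) (hy : 0 ≤ y) : ∀ l : List ℕ, (∀ p ∈ l, y ≤ (p : ℝ)) →
    y ^ l.length ≤ ((l.prod : ℕ) : ℝ) := by
  intro l
  induction l with
  | nil => intro _; simp
  | cons p l ih =>
    intro h
    rw [List.length_cons, List.prod_cons, pow_succ, mul_comm, Nat.cast_mul]
    exact mul_le_mul (h p (by simp)) (ih fun q hq => h q (by simp [hq])) (by positivity)
      (by positivity)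

/-- the sum of the labels of the prime factors -/
def lab {G : Type} [AddCommGroup G] (Φ : ℕ → G) (z : ℤ) : G := (z.natAbs.primeFactorsList.map Φ).sum

theorem addG_lab {G : Type} [AddCommGroup G] (Φ : ℕ → G) : AddG (lab Φ) := by
  intro x y hx hy
  unfold lab
  rw [Int.natAbs_mul, ← List.sum_append, ← List.map_append]
  exact ((Nat.perm_primeFactorsList_mul (Int.natAbs_ne_zero.2 hx)
    (Int.natAbs_ne_zero.2 hy)).map Φ).sum_eq

theorem lab_prime {G : Type} [AddCommGroup G] (Φ : ℕ → G) (p : ℕ) (hp : p.Prime) :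
    lab Φ (p : ℤ) = Φ p := by
  unfold lab
  rw [Int.natAbs_natCast, Nat.primeFactorsList_prime hp]
  simp

/-- few prime factors -/
theorem almostPrime_of (R : ℕ) (x δ E : ℝ) (hx : 1 < x) (hδ : 0 < δ) (hR : E / δ ≤ R) (z : ℕ)
    (h1 : 1 < z) (hz : (z : ℝ) ≤ x ^ E) (hp : ∀ l : ℕ, l.Prime → l ∣ z → x ^ δ < l) :
    AlmostPrime R (x ^ δ) z := by
  have hx0 : 0 < x := by linarith
  refine ⟨h1, ?_, hp⟩
  have g1 := pow_length_le (x ^ δ) (by positivity) z.primeFactorsList (by
    intro p hp'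
    exact (hp p (Nat.prime_of_mem_primeFactorsList hp')
      (Nat.dvd_of_mem_primeFactorsList hp')).le)
  rw [Nat.prod_primeFactorsList (by omega)] at g1
  have g2 : x ^ (δ * (z.primeFactorsList.length : ℝ)) ≤ x ^ E := by
    rw [Real.rpow_mul hx0.le, Real.rpow_natCast]
    exact g1.trans hz
  have g3 := (Real.rpow_le_rpow_left_iff hx).1 g2
  have g4 : (z.primeFactorsList.length : ℝ) ≤ E / δ := by
    rw [le_div_iff₀ hδ]; linarith
  exact_mod_cast g4.trans hR

/-- the zeros of `X ^ 2 - 2` modulo `p` -/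
def B1 (p : ℕ) : Finset ℕ := (range p).filter (fun e : ℕ => (p : ℤ) ∣ (e : ℤ) ^ 2 - 2)

/-- the zeros of `a - m X` modulo `p` -/
def B2 (a m p : ℕ) : Finset ℕ := (range p).filter (fun e : ℕ => (p : ℤ) ∣ (a : ℤ) - m * e)

/-- the excluded classes -/
def Bad (a m p : ℕ) : Finset ℤ := (B1 p ∪ B2 a m p).image (fun e : ℕ => (e : ℤ))

theorem eq_of_dvd_sub {p a b : ℕ} (ha : a < p) (hb : b < p) (h : (p : ℤ) ∣ (a : ℤ) - b) : a = b := by
  have h4 : (b : ℤ) ≡ a [ZMOD p] := (Int.modEq_iff_dvd).2 h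
  have h5 : b ≡ a [MOD p] := (Int.natCast_modEq_iff).1 h4
  exact (Nat.ModEq.eq_of_lt_of_lt h5 hb ha).symm

theorem B1_card (p : ℕ) (hp : p.Prime) : (B1 p).card ≤ 2 := by
  rcases (B1 p).eq_empty_or_nonempty with h | ⟨e, he⟩
  · rw [h]; simp
  · have hpp := Nat.prime_iff_prime_int.1 hp
    have hsub : B1 p ⊆ {e, (p - e) % p} := by
      intro f hf
      unfold B1 at he hf
      rw [mem_filter, mem_range] at he hf
      have h1 : (p : ℤ) ∣ ((f : ℤ) - e) * (f + e) := by
        have := dvd_sub hf.2 he.2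
        rwa [show (f : ℤ) ^ 2 - 2 - ((e : ℤ) ^ 2 - 2) = (f - e) * (f + e) by ring] at this
      rw [mem_insert, mem_singleton]
      rcases hpp.dvd_or_dvd h1 with h2 | h2
      · exact Or.inl (eq_of_dvd_sub hf.1 he.1 h2)
      · right
        refine eq_of_dvd_sub hf.1 (Nat.mod_lt _ hp.pos) ?_
        have h3 : (((p - e) % p : ℕ) : ℤ) = ((p : ℤ) - e) % p := by
          rw [Int.natCast_mod, Nat.cast_sub he.1.le]
        rw [h3]
        have h4 : (p : ℤ) ∣ ((p : ℤ) - e) - ((p : ℤ) - e) % p := Int.dvd_self_sub_emod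
        have h5 : (f : ℤ) - ((p : ℤ) - e) % p =
            (f + e) - p + (((p : ℤ) - e) - ((p : ℤ) - e) % p) := by ring
        rw [h5]
        exact dvd_add (dvd_sub h2 (dvd_refl _)) h4
    exact (card_le_card hsub).trans (card_insert_le _ _ |>.trans (by simp))

theorem B2_card (a m p : ℕ) (hp : p.Prime) (hc : Nat.Coprime m a) : (B2 a m p).card ≤ 1 := by
  have hpp := Nat.prime_iff_prime_int.1 hp
  rw [card_le_one]
  intro e he f hf
  unfold B2 at he hf
  rw [mem_filter, mem_range] at he hf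
  have hpm : ¬ (p : ℤ) ∣ (m : ℤ) := by
    intro h
    have h1 : (p : ℤ) ∣ (a : ℤ) := by
      have := dvd_add he.2 (h.mul_right (e : ℤ))
      rwa [sub_add_cancel] at this
    exact Nat.not_coprime_of_dvd_of_dvd hp.one_lt (Int.natCast_dvd_natCast.1 h)
      (Int.natCast_dvd_natCast.1 h1) hc
  have h1 : (p : ℤ) ∣ m * ((e : ℤ) - f) := by
    have := dvd_sub hf.2 he.2
    rwa [show (a : ℤ) - m * f - (a - m * e) = m * (e - f) by ring] at this
  exact eq_of_dvd_sub he.1 hf.1 ((hpp.dvd_or_dvd h1).resolve_left hpm)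

theorem Bad_card (a m p : ℕ) (hp : p.Prime) (hc : Nat.Coprime m a) : (Bad a m p).card ≤ 3 := by
  refine card_image_le.trans ((card_union_le _ _).trans ?_)
  have h1 := B1_card p hp
  have h2 := B2_card a m p hp hc
  omega

theorem exists_good (a m p : ℕ) (hp : p.Prime) (hc : Nat.Coprime m a)
    (hodd : Odd ((a : ℤ) - m)) : ∃ e : ℕ, e < p ∧ e ≠ 0 ∧ e ∉ B1 p ∧ e ∉ B2 a m p := by
  by_contra hcon
  push Not at hcon
  have h0 := B1_card p hp
  have h1 := B2_card a m p hp hc
  have hsub : range p ⊆ insert 0 (B1 p ∪ B2 a m p) := by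
    intro e he
    rw [mem_range] at he
    rw [mem_insert, mem_union]
    by_cases h2 : e = 0
    · exact Or.inl h2
    · right
      by_cases h3 : e ∈ B1 p
      · exact Or.inl h3
      · exact Or.inr (hcon e he h2 h3)
  have h3 := card_le_card hsub
  rw [card_range] at h3
  have h4 := card_insert_le 0 (B1 p ∪ B2 a m p)
  have h5 := card_union_le (B1 p) (B2 a m p)
  have h6 : p ≤ 4 := by omega
  have h7 : p = 2 ∨ p = 3 := by
    have := hp.two_le
    rcases (by omega : p = 2 ∨ p = 3 ∨ p = 4) with h | h | h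
    · exact Or.inl h
    · exact Or.inr h
    · subst h
      exact absurd hp (by norm_num)
  rcases h7 with h7 | h7
  · subst h7
    have h8 : (1 : ℕ) ∈ insert 0 (B1 2 ∪ B2 a m 2) := hsub (by simp)
    rw [mem_insert, mem_union] at h8
    rcases h8 with h8 | h8 | h8
    · omega
    · unfold B1 at h8
      rw [mem_filter] at h8
      have := h8.2
      norm_num at this
    · unfold B2 at h8
      rw [mem_filter] at h8
      have h9 := h8.2
      obtain ⟨w, hw⟩ := hodd
      push_cast at h9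
      omega
  · subst h7
    have h8 : (B1 3).card = 0 := by
      rw [card_eq_zero]
      decide
    omega

/-- **Almost prime solutions in all short intervals, with arbitrary labels.** Let `N ≥ 1`,
`1 - 1 / N < θ ≤ 1`, `ε > 0` and `E` be given. There are `R`, `q₀` and `δ > 0` such that for all large `x`
there are primes `l ≡ 1` modulo `q₀` in `(x ^ δ, x ^ (2 δ)]`, and the following holds for ALL admissible
pairs `(m, n)` with `m (2 x + 1) < n ≤ x ^ E`.

Let `G` be a finite abelian group with at most `N` elements, or of exponent `2` with at most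
`2 ^ (N - 1)` elements, and let `Φ l ∈ G` be arbitrary labels of the primes `l` such that the labels of
the primes `l ≡ 1` modulo `q₀` in `(x ^ δ, x ^ (2 δ)]` generate `G`. Then for EVERY `g` in `G` at least
`x ^ (1 - N (1 - θ) - ε)` integers `q` in `(x, x + x ^ θ]` have the following two properties: the sum of
the labels of the prime factors of `q` (with multiplicity) is `g`; and there is a `p < n` with
`q = ⌊(n - p) / m⌋` such that `p`, `q` and `q ^ 2 - 2` are products of at most `R` primes, all larger than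
`x ^ δ`.

For example (`G = ZMod M`, `M ≤ N`, `Φ = 1`) the number of prime factors of `q` lies in any given class
modulo `M`, see `result_Omega`. -/
theorem result (N : ℕ) (hN : 1 ≤ N) (θ ε E : ℝ) (hθ : 1 - 1 / (N : ℝ) < θ) (hθ1 : θ ≤ 1)
    (hε : 0 < ε) :
    ∃ (R q₀ : ℕ) (δ : ℝ), 0 < q₀ ∧ 0 < δ ∧ ∃ x₀ : ℝ, ∀ x : ℝ, x₀ ≤ x →
      (∃ l : ℕ, l.Prime ∧ x ^ δ < l ∧ (l : ℝ) ≤ x ^ (2 * δ) ∧ l ≡ 1 [MOD q₀]) ∧
      ∀ m n : ℕ, Admissible m n → (m : ℝ) * (2 * x + 1) < n → (n : ℝ) ≤ x ^ E →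
      ∀ (G : Type) [AddCommGroup G] [Fintype G],
        (Fintype.card G ≤ N ∨ (∀ z : G, z + z = 0) ∧ Fintype.card G ≤ 2 ^ (N - 1)) →
        ∀ Φ : ℕ → G, AddSubgroup.closure {g : G | ∃ l : ℕ, l.Prime ∧ x ^ δ < l ∧
          (l : ℝ) ≤ x ^ (2 * δ) ∧ l ≡ 1 [MOD q₀] ∧ Φ l = g} = ⊤ →
        ∀ g : G, x ^ (1 - N * (1 - θ) - ε) ≤
          ({q : ℕ | q ∈ Quotients m n θ δ R x ∧ (q.primeFactorsList.map Φ).sum = g}.ncard : ℝ) := by
  classical
  obtain ⟨q₀, δ, hq, hδ, x₁, hx₁, hmain⟩ := real_versionG 1 one_pos 0 3 N hN θ ε hθ hθ1 hε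
  obtain ⟨Y₀, hY₀⟩ := Pool.Agent.H661R3.OP.t_PAP q₀ hq
  have l1 : ∀ᶠ x : ℝ in Filter.atTop, ((Y₀ : ℝ) + 2) ≤ x ^ δ :=
    (tendsto_rpow_atTop hδ).eventually_ge_atTop _
  obtain ⟨x₂, hx₂⟩ := Filter.eventually_atTop.mp l1
  refine ⟨⌈(max E 3) / δ⌉₊, q₀, δ, hq, hδ, max (max x₁ x₂) 4, ?_⟩
  intro x hx
  have hxx₁ : x₁ ≤ x := ((le_max_left _ _).trans (le_max_left _ _)).trans hx
  have hxx₂ : x₂ ≤ x := ((le_max_right _ _).trans (le_max_left _ _)).trans hx
  have hx4 : (4 : ℝ) ≤ x := (le_max_right _ _).trans hx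
  have hx1 : 1 ≤ x := hx₁.trans hxx₁
  have hx0 : 0 < x := by linarith
  have hx2 : 1 < x := by linarith
  have hxθ : x ^ θ ≤ x := by
    calc x ^ θ ≤ x ^ (1 : ℝ) := Real.rpow_le_rpow_of_exponent_le hx1 hθ1
      _ = x := Real.rpow_one x
  have hδx : (1 : ℝ) ≤ x ^ δ := Real.one_le_rpow hx1 hδ.le
  have hx3 : x ^ (3 : ℝ) ≤ x ^ (max E 3) := Real.rpow_le_rpow_of_exponent_le hx1 (le_max_right _ _)
  have hx33 : x ^ (3 : ℝ) = x ^ 3 := by
    rw [show (3 : ℝ) = ((3 : ℕ) : ℝ) by norm_num, Real.rpow_natCast]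
  have hxE : x ^ E ≤ x ^ (max E 3) := Real.rpow_le_rpow_of_exponent_le hx1 (le_max_left _ _)
  refine ⟨?_, ?_⟩
  · obtain ⟨p, hp, hp1, hp2, hp3⟩ := hY₀ ⌊x ^ δ⌋₊ (by
      apply Nat.le_floor
      have := hx₂ x hxx₂
      linarith)
    refine ⟨p, hp, ?_, ?_, ?_⟩
    · have : ⌊x ^ δ⌋₊ + 1 ≤ p := hp1
      calc x ^ δ < (⌊x ^ δ⌋₊ : ℝ) + 1 := Nat.lt_floor_add_one _
        _ ≤ p := by exact_mod_cast this
    · calc (p : ℝ) ≤ ((⌊x ^ δ⌋₊ ^ 2 : ℕ) : ℝ) := by exact_mod_cast hp2
        _ = (⌊x ^ δ⌋₊ : ℝ) ^ 2 := by push_cast; rfl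
        _ ≤ (x ^ δ) ^ 2 := pow_le_pow_left₀ (by positivity) (Nat.floor_le (by positivity)) 2
        _ = x ^ (2 * δ) := by
          rw [← Real.rpow_natCast (x ^ δ), ← Real.rpow_mul hx0.le]
          congr 1
          push_cast
          ring
    · apply Nat.ModEq.symm
      rw [Nat.modEq_iff_dvd]
      simpa using hp3
  intro m n hmn hmx hnx G _ _ hG Φ hΦ g
  obtain ⟨hm1, hmn1, hadm⟩ := hmn
  obtain ⟨s, hs, hcop, hodd⟩ := Pool.Agent.Y879.GL.exists_rem m n hm1 hmn1 hadm
  have hsn : s ≤ n := by omega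
  have key := hmain (Bad (n - s) m) (fun p hp => Bad_card _ _ p hp hcop) (by
    intro p hp
    obtain ⟨e, he, he0, he1, he2⟩ := exists_good (n - s) m p hp hcop hodd
    refine ⟨(e : ℤ), ?_, ?_⟩
    · intro hd
      have h1 : (p : ℤ) ∣ (e : ℤ) := by simpa using hd
      have h2 : p ∣ e := Int.natCast_dvd_natCast.1 h1
      have := Nat.le_of_dvd (Nat.pos_of_ne_zero he0) h2
      omega
    · intro f hf hd
      unfold Bad at hf
      rw [mem_image] at hf
      obtain ⟨f', hf', rfl⟩ := hf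
      have h1 : (p : ℤ) ∣ (e : ℤ) - f' := by simpa using hd
      have hfp : f' < p := by
        rw [mem_union] at hf'
        rcases hf' with h | h
        · unfold B1 at h
          rw [mem_filter, mem_range] at h
          exact h.1
        · unfold B2 at h
          rw [mem_filter, mem_range] at h
          exact h.1
      have h2 := eq_of_dvd_sub he hfp h1
      rw [← h2, mem_union] at hf'
      rcases hf' with h | h
      · exact he1 h
      · exact he2 h) x hxx₁ G hG (lab Φ) (addG_lab Φ) (by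
    intro H hH
    by_contra hcon
    apply hH
    rw [← hΦ]
    symm
    apply le_antisymm
    · rw [AddSubgroup.closure_le]
      rintro g' ⟨p, hp, h1, h2, h3, rfl⟩
      by_contra h4
      refine hcon ⟨p, hp, h1, h2, ?_, ?_⟩
      · have h5 := (Nat.modEq_iff_dvd.1 h3.symm)
        simpa using h5
      · rw [lab_prime Φ p hp]; exact h4
    · rw [hΦ]; exact le_top) g
  refine key.trans (Nat.cast_le.2 ?_)
  refine Set.ncard_le_ncard_of_injOn Int.toNat ?_ ?_ ?_
  · rintro z ⟨h1, h2, -, h4, h5, h6⟩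
    have hz0 : (0 : ℝ) < z := by linarith
    have hz1 : 0 < z := by exact_mod_cast hz0
    obtain ⟨q, rfl⟩ := Int.eq_ofNat_of_zero_le hz1.le
    simp only [Int.toNat_natCast] at *
    have hq1 : x < (q : ℝ) := by exact_mod_cast h1
    have hq2 : (q : ℝ) ≤ x + x ^ θ := by exact_mod_cast h2
    have hq3 : (q : ℝ) ≤ 2 * x := by linarith
    have hm0 : (1 : ℝ) ≤ m := by exact_mod_cast hm1
    have hmq : (m * q + m : ℝ) < n := by
      have : (m : ℝ) * q ≤ m * (2 * x) := mul_le_mul_of_nonneg_left hq3 (by linarith)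
      linarith
    have hmq' : m * q + m < n := by exact_mod_cast hmq
    have hq00 : 0 < q := by
      have : (0 : ℝ) < q := by linarith
      exact_mod_cast this
    have hmq0 : 0 < m * q := Nat.mul_pos (by omega) hq00
    have hq4 : 4 < q := by
      have : (4 : ℝ) < q := by linarith
      exact_mod_cast this
    have hqpr : ∀ l : ℕ, l.Prime → l ∣ q → x ^ δ < l := fun l hl hd =>
      h4 l hl (Int.natCast_dvd_natCast.2 hd)
    -- the classes avoided
    have hav : ∀ l : ℕ, l.Prime → (l : ℝ) ≤ x ^ δ → q % l ∉ B1 l ∧ q % l ∉ B2 (n - s) m l := by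
      intro l hl hlx
      have h7 := h5 l hl hlx
      have h8 : (l : ℤ) ∣ (q : ℤ) - ((q % l : ℕ) : ℤ) := by
        rw [Int.natCast_mod]
        exact Int.dvd_self_sub_emod
      constructor
      · intro h9
        exact h7 _ (mem_image.2 ⟨_, mem_union_left _ h9, rfl⟩) h8
      · intro h9
        exact h7 _ (mem_image.2 ⟨_, mem_union_right _ h9, rfl⟩) h8
    have hmul : 4 < q ^ 2 := by nlinarith
    have hqq : ∀ l : ℕ, l.Prime → l ∣ q ^ 2 - 2 → x ^ δ < l := by
      intro l hl hd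
      by_contra hcon2
      push Not at hcon2
      apply (hav l hl hcon2).1
      unfold B1
      rw [mem_filter, mem_range]
      refine ⟨Nat.mod_lt _ hl.pos, ?_⟩
      have h8 : (l : ℤ) ∣ (q : ℤ) - ((q % l : ℕ) : ℤ) := by
        rw [Int.natCast_mod]
        exact Int.dvd_self_sub_emod
      have h9 : (l : ℤ) ∣ (q : ℤ) ^ 2 - 2 := by
        have := Int.natCast_dvd_natCast.2 hd
        rw [Nat.cast_sub (by omega)] at this
        simpa using this
      have e : (((q % l : ℕ) : ℤ)) ^ 2 - 2 = ((q : ℤ) ^ 2 - 2) -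
          ((q : ℤ) - ((q % l : ℕ) : ℤ)) * (q + ((q % l : ℕ) : ℤ)) := by ring
      rw [e]
      exact dvd_sub h9 (h8.mul_right _)
    have hpp : ∀ l : ℕ, l.Prime → l ∣ n - s - m * q → x ^ δ < l := by
      intro l hl hd
      by_contra hcon2
      push Not at hcon2
      apply (hav l hl hcon2).2
      unfold B2
      rw [mem_filter, mem_range]
      refine ⟨Nat.mod_lt _ hl.pos, ?_⟩
      have h8 : (l : ℤ) ∣ (q : ℤ) - ((q % l : ℕ) : ℤ) := by
        rw [Int.natCast_mod]
        exact Int.dvd_self_sub_emod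
      have h9 : (l : ℤ) ∣ ((n - s : ℕ) : ℤ) - m * q := by
        have := Int.natCast_dvd_natCast.2 hd
        rw [Nat.cast_sub (by omega)] at this
        simpa using this
      have e : ((n - s : ℕ) : ℤ) - m * ((q % l : ℕ) : ℤ) = (((n - s : ℕ) : ℤ) - m * q) +
          m * ((q : ℤ) - ((q % l : ℕ) : ℤ)) := by ring
      rw [e]
      exact dvd_add h9 (h8.mul_left _)
    have hqx3 : ((q ^ 2 : ℕ) : ℝ) ≤ x ^ (max E 3) := by
      refine le_trans ?_ hx3
      rw [hx33]
      push_cast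
      have h7 : (q : ℝ) ^ 2 ≤ (2 * x) ^ 2 := pow_le_pow_left₀ (by positivity) hq3 2
      nlinarith [mul_le_mul_of_nonneg_right hx4 (by positivity : (0 : ℝ) ≤ x ^ 2)]
    have hceil := Nat.le_ceil ((max E 3) / δ)
    refine ⟨⟨hq1, hq2, n - s - m * q, by omega, ?_, ?_, ?_, ?_⟩, ?_⟩
    · have e : n - (n - s - m * q) = s + m * q := by omega
      rw [e, Nat.add_mul_div_left _ _ (by omega), Nat.div_eq_of_lt hs, zero_add]
    · refine almostPrime_of _ x δ (max E 3) hx2 hδ hceil _ (by omega) ?_ hpp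
      have h7 : ((n - s - m * q : ℕ) : ℝ) ≤ n := by
        exact_mod_cast (by omega : n - s - m * q ≤ n)
      linarith
    · refine almostPrime_of _ x δ (max E 3) hx2 hδ hceil _ (by omega) ?_ hqpr
      have h7 : ((q : ℕ) : ℝ) ≤ ((q ^ 2 : ℕ) : ℝ) := by
        exact_mod_cast (by nlinarith : q ≤ q ^ 2)
      linarith
    · refine almostPrime_of _ x δ (max E 3) hx2 hδ hceil _ (by omega) ?_ hqq
      have h7 : ((q ^ 2 - 2 : ℕ) : ℝ) ≤ ((q ^ 2 : ℕ) : ℝ) := by
        exact_mod_cast Nat.sub_le _ _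
      linarith
    · exact h6
  · rintro z ⟨h1, -⟩ z' ⟨h1', -⟩ h
    have hn0 : (0 : ℝ) < z := by linarith
    have hn1 : 0 < z := by exact_mod_cast hn0
    have hn0' : (0 : ℝ) < z' := by linarith
    have hn1' : 0 < z' := by exact_mod_cast hn0'
    have : (z.toNat : ℤ) = z'.toNat := by exact_mod_cast h
    rwa [Int.toNat_of_nonneg hn1.le, Int.toNat_of_nonneg hn1'.le] at this
  · apply (Set.finite_Iic ⌊x + x ^ θ⌋₊).subset
    rintro z ⟨⟨h1, h2, -⟩, -⟩
    exact Nat.le_floor h2

/-- **The number of prime factors of `q`, in any class modulo `M`.** The special case of `result` with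
`G = ZMod M` and `Φ = 1`. -/
theorem result_Omega (M : ℕ) (hM : 1 ≤ M) (θ ε E : ℝ) (hθ : 1 - 1 / (M : ℝ) < θ) (hθ1 : θ ≤ 1)
    (hε : 0 < ε) :
    ∃ (R : ℕ) (δ : ℝ), 0 < δ ∧ ∃ x₀ : ℝ, ∀ x : ℝ, x₀ ≤ x → ∀ m n : ℕ, Admissible m n →
      (m : ℝ) * (2 * x + 1) < n → (n : ℝ) ≤ x ^ E → ∀ t : ℕ,
      x ^ (1 - M * (1 - θ) - ε) ≤ ({q : ℕ | q ∈ Quotients m n θ δ R x ∧
          q.primeFactorsList.length ≡ t [MOD M]}.ncard : ℝ) := by
  obtain ⟨R, q, δ, -, hδ, x₀, h⟩ := result M hM θ ε E hθ hθ1 hε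
  refine ⟨R, δ, hδ, x₀, fun x hx m n h3 h4 h5 t => ?_⟩
  obtain ⟨⟨p, hp, hp1, hp2, hp3⟩, h2⟩ := h x hx
  have : NeZero M := ⟨by omega⟩
  have h1 := h2 m n h3 h4 h5 (ZMod M) (Or.inl (by rw [ZMod.card])) (fun _ => 1) (by
    rw [eq_top_iff]
    intro z _
    have hz : z = (z.val : ℕ) • (1 : ZMod M) := by
      rw [nsmul_eq_mul, mul_one, ZMod.natCast_zmod_val]
    have hmem : (1 : ZMod M) ∈ {g : ZMod M | ∃ p : ℕ, p.Prime ∧ x ^ δ < p ∧
        (p : ℝ) ≤ x ^ (2 * δ) ∧ p ≡ 1 [MOD q] ∧ (fun _ : ℕ => (1 : ZMod M)) p = g} :=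
      ⟨p, hp, hp1, hp2, hp3, rfl⟩
    rw [hz]
    exact AddSubgroup.nsmul_mem _ (AddSubgroup.subset_closure hmem) _)
    (t : ZMod M)
  refine h1.trans (le_of_eq ?_)
  congr 2
  ext n
  simp only [Set.mem_ofPred_eq]
  refine and_congr_right fun _ => ?_
  rw [List.map_const', List.sum_replicate, nsmul_eq_mul, mul_one]
  exact ZMod.natCast_eq_natCast_iff _ _ _

end Pool.Agent.Results.MP_4011c3_nt.LabelledQuotients
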