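import Pool.Agent.H32.PQ.Main

/-!
# Primes `q = ⌊(n - p) / m⌋` with `p` and `q ^ 2 - 2` almost prime, both with a large prime factor

Let `(m, n)` be an admissible pair with `n` large and `m ≤ n ^ (1 - θ)`, let `s < m` be a remainder of `n - p`
modulo `m` which is not excluded by a congruence, and put `M = ⌊(n - s) / (4 m)⌋`. We consider the ACTUAL primes
`q` in `(M, 2 M]` such that neither `q ^ 2 - 2` nor `p = n - s - m q` has a prime factor up to `n ^ (1 / r)`, so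
that `p < n`, `⌊(n - p) / m⌋ = q` and `p`, `q ^ 2 - 2` have at most `r` and `2 r` prime factors. There are at
least `c n / (m log ^ 3 n)` of them, which is the expected order of magnitude. If `p` and `q ^ 2 - 2` are primes
as well, they have prime factors larger than `q ^ (1 / 2 + δ)`. We show that this holds at the same time for `p`
and for `q ^ 2 - 2` for a proportion `κ` of the primes `q` considered, for any `κ < 1 / 4` and some `δ > 0`
which depends on `κ` only.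

Proof: the first moments of the contribution of the prime factors up to `q ^ (1 / 2 - δ)` to `log p` and
`log (q ^ 2 - 2)`, by the fundamental lemma of the sieve for weights over the primes `q` and the
Bombieri-Vinogradov theorem in residue classes to moduli which are products of small primes and one large
prime; and an upper bound sieve for `q` for the prime factors between `q ^ (1 / 2 - δ)` and `q ^ (1 / 2 + δ)`.
-/

set_option autoImplicit false

namespace Pool.Agent.Results.MP_4011c3_nt.LargePrimeFactorsEveryPair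

open Filter Finset Polynomial
open Pool.Agent.H32.LP Pool.Agent.H32.PQ Pool.Agent.H373R2.T7 Pool.Agent.Y879.GL
open Pool.Agent.W123.RU.Poly (Q)

/-- The admissible pairs of the problem. -/
def Admissible (m n : ℕ) : Prop :=
  1 ≤ m ∧ 2 * m + 1 < n ∧ ((m = 1 ∧ Even n) ∨ (m = 3 ∧ n % 6 ≠ 1) ∨ m = 2 ∨ 4 ≤ m)

/-- The remainders `s < m` of `n - p` modulo `m` which allow odd `p = n - s - m q` prime to `m` with `q` odd. -/
def Rem (m n s : ℕ) : Prop := s < m ∧ Nat.Coprime m (n - s) ∧ Odd (((n - s : ℕ) : ℤ) - m)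

/-- `k` has no prime factor `l ≤ z`. -/
def Rough (z : ℝ) (k : ℕ) : Prop := ∀ l : ℕ, l.Prime → (l : ℝ) ≤ z → ¬ l ∣ k

/-- `k` has a prime factor larger than `z`. -/
def HasLarge (z : ℝ) (k : ℕ) : Prop := ∃ l : ℕ, l.Prime ∧ l ∣ k ∧ z < (l : ℝ)

/-- With `M = ⌊(n - s) / (4 m)⌋`: the primes `q` in `(M, 2 M]` such that `q ^ 2 - 2` and `n - s - m q` have no
prime factor `≤ n ^ (1 / r)`. -/
def Sol (m n s r : ℕ) : Set ℕ :=
  {q | q.Prime ∧ (n - s) / (4 * m) < q ∧ q ≤ 2 * ((n - s) / (4 * m)) ∧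
    Rough ((n : ℝ) ^ (1 / (r : ℝ))) (q ^ 2 - 2) ∧ Rough ((n : ℝ) ^ (1 / (r : ℝ))) (n - s - m * q)}

lemma lt_of (m n s q : ℕ) (hm : 1 ≤ m) (hq0 : (n - s) / (4 * m) < q) (hq : q ≤ 2 * ((n - s) / (4 * m))) :
    m * q < n - s := by
  have h1 : 4 * m * ((n - s) / (4 * m)) ≤ n - s := Nat.mul_div_le _ _
  have h2 : m * q ≤ m * (2 * ((n - s) / (4 * m))) := Nat.mul_le_mul_left m hq
  have h3 : 0 < m * q := Nat.mul_pos hm (by omega)
  have h4 : 2 * (m * q) ≤ n - s := by nlinarith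
  omega

lemma sol_eq (m n s r : ℕ) (hm : 1 ≤ m) (hy : yl r n ≤ (n - s) / (4 * m)) :
    Sol m n s r = ((SP (Q (s3 (n - s) m)) (yl r n) ((n - s) / (4 * m)) : Finset ℕ) : Set ℕ) := by
  ext q
  rw [Finset.mem_coe, mem_SP, Sol, Set.mem_ofPred_eq]
  constructor
  · rintro ⟨h1, h2, h3, h4, h5⟩
    refine ⟨⟨h2, h3⟩, h1, fun p hp hQ => ?_⟩
    obtain ⟨hp1, hp2⟩ := mem_pz.1 hp
    have hpr : (p : ℝ) ≤ (n : ℝ) ^ (1 / (r : ℝ)) := le_trans (by exact_mod_cast hp1) (yl_le r n)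
    rw [Q3_iff] at hQ
    rcases hQ with hQ | hQ | hQ
    · have := (Nat.prime_dvd_prime_iff_eq hp2 h1).1 hQ
      omega
    · apply h4 p hp2 hpr
      have h6 : ((q ^ 2 - 2 : ℕ) : ℤ) = (q : ℤ) ^ 2 - 2 := by
        have : 2 ≤ q ^ 2 := by
          have := h1.two_le
          nlinarith
        rw [Nat.cast_sub this]
        push_cast
        ring
      rw [← h6] at hQ
      exact_mod_cast hQ
    · apply h5 p hp2 hpr
      have h6 : ((n - s - m * q : ℕ) : ℤ) = ((n - s : ℕ) : ℤ) - m * q := by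
        rw [Nat.cast_sub (lt_of m n s q hm h2 h3).le]
        push_cast
        ring
      rw [← h6] at hQ
      exact_mod_cast hQ
  · rintro ⟨⟨h2, h3⟩, h1, h4⟩
    refine ⟨h1, h2, h3, fun l hl hlr hd => ?_, fun l hl hlr hd => ?_⟩
    · apply h4 l (mem_pz.2 ⟨Nat.le_floor hlr, hl⟩)
      rw [Q3_iff]
      refine Or.inr (Or.inl ?_)
      have h6 : ((q ^ 2 - 2 : ℕ) : ℤ) = (q : ℤ) ^ 2 - 2 := by
        have : 2 ≤ q ^ 2 := by
          have := h1.two_le
          nlinarith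
        rw [Nat.cast_sub this]
        push_cast
        ring
      rw [← h6]
      exact_mod_cast hd
    · apply h4 l (mem_pz.2 ⟨Nat.le_floor hlr, hl⟩)
      rw [Q3_iff]
      refine Or.inr (Or.inr ?_)
      have h6 : ((n - s - m * q : ℕ) : ℤ) = ((n - s : ℕ) : ℤ) - m * q := by
        rw [Nat.cast_sub (lt_of m n s q hm h2 h3).le]
        push_cast
        ring
      rw [← h6]
      exact_mod_cast hd

/-- **Primes `q = ⌊(n - p) / m⌋` with `p` and `q ^ 2 - 2` almost prime, both with a large prime factor.** -/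
theorem result (κ : ℝ) (hκ : κ < 1 / 4) : ∃ δ : ℝ, 0 < δ ∧ ∀ θ : ℝ, 0 < θ → ∃ r₀ : ℕ, 1 ≤ r₀ ∧
    ∀ r : ℕ, r₀ ≤ r → ∃ c : ℝ, 0 < c ∧ ∃ n₀ : ℕ, ∀ n : ℕ, n₀ ≤ n → ∀ m : ℕ, Admissible m n →
      (m : ℝ) ≤ (n : ℝ) ^ (1 - θ) → (∃ s : ℕ, Rem m n s) ∧ ∀ s : ℕ, Rem m n s →
        (∀ q ∈ Sol m n s r, n - s - m * q < n ∧ (n - (n - s - m * q)) / m = q ∧
          (n - s - m * q).primeFactorsList.length ≤ r ∧ (q ^ 2 - 2).primeFactorsList.length ≤ 2 * r) ∧
        c * (n / (m * Real.log n ^ 3)) ≤ ((Sol m n s r).ncard : ℝ) ∧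
        κ * ((Sol m n s r).ncard : ℝ) ≤
          ({q | q ∈ Sol m n s r ∧ HasLarge ((q : ℝ) ^ (1 / 2 + δ)) (n - s - m * q) ∧
            HasLarge ((q : ℝ) ^ (1 / 2 + δ)) (q ^ 2 - 2)}.ncard : ℝ) := by
  classical
  obtain ⟨δ, hδ, hδ1, H⟩ := main κ hκ
  refine ⟨δ / 2, by positivity, fun θ hθ => ?_⟩
  obtain ⟨ra, hra, H⟩ := H θ hθ
  obtain ⟨rb, H2⟩ := Pool.Agent.Results.MP_4011c3_nt.PrimeQEveryPair.result 1 (1 / 2) 1 (1 / 2)
    one_pos (by norm_num) (by norm_num) (by norm_num) (by norm_num)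
  obtain ⟨rc, hrc⟩ := exists_nat_ge (2 / θ)
  refine ⟨max ra (max rb rc), le_trans (by omega) (le_max_left _ _), fun r hr => ?_⟩
  have hr1 : ra ≤ r := (le_max_left _ _).trans hr
  have hr2 : rb ≤ r := ((le_max_left _ _).trans (le_max_right _ _)).trans hr
  have hr3 : rc ≤ r := ((le_max_right _ _).trans (le_max_right _ _)).trans hr
  have hr4 : 4 ≤ r := hra.trans hr1
  have hrr : (0 : ℝ) < r := by exact_mod_cast (by omega : 0 < r)
  obtain ⟨c, hc, H⟩ := H r hr1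
  obtain ⟨n1, H2⟩ := H2 r hr2
  refine ⟨c, hc, ?_⟩
  have hnθ : Tendsto (fun n : ℕ => (n : ℝ) ^ (θ / 2)) atTop atTop :=
    (tendsto_rpow_atTop (by positivity)).comp (tendsto_natCast_atTop_atTop (R := ℝ))
  obtain ⟨n0, hn0⟩ := eventually_atTop.1 ((H.and (eventually_ge_atTop n1)).and
    ((hnθ.eventually_ge_atTop ((2 : ℝ) ^ (2 / δ) + 1)).and (eventually_ge_atTop 1)))
  refine ⟨n0, fun n hn m hadm hmn => ?_⟩
  obtain ⟨⟨H, hn1⟩, hn2, hn3⟩ := hn0 n hn
  obtain ⟨hrem, H2⟩ := H2 n hn1 m hadm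
  refine ⟨hrem, fun s hs => ?_⟩
  obtain ⟨H2, _, _⟩ := H2 s hs
  obtain ⟨M, hM⟩ : ∃ M, M = (n - s) / (4 * m) := ⟨_, rfl⟩
  obtain ⟨k1, k2, k3⟩ := H m hadm hmn s hs M hM
  have hm1 : 1 ≤ m := hadm.1
  have hnr : (1 : ℝ) ≤ n := by exact_mod_cast hn3
  have hMp : (0 : ℝ) < M := by
    have : (0 : ℝ) < (2 : ℝ) ^ (2 / δ) := by positivity
    linarith
  have hyM : yl r n ≤ M := by
    have h1 : (yl r n : ℝ) ≤ M := by
      refine (yl_le r n).trans (le_trans ?_ k1)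
      apply Real.rpow_le_rpow_of_exponent_le hnr
      have h2 : 2 / θ ≤ r := hrc.trans (by exact_mod_cast hr3)
      rw [div_le_iff₀ hθ] at h2
      rw [div_le_div_iff₀ hrr (by norm_num)]
      linarith
    exact_mod_cast h1
  have hsol := sol_eq m n s r hm1 (by rw [← hM]; exact hyM)
  rw [← hM] at hsol
  refine ⟨?_, ?_, ?_⟩
  · intro q hq
    have hq' := hq
    rw [hsol, Finset.mem_coe, mem_SP] at hq'
    obtain ⟨⟨g1, g2⟩, g3, g4⟩ := hq'
    have hlt := lt_of m n s q hm1 (by rw [← hM]; exact g1) (by rw [← hM]; exact g2)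
    have hgood : Pool.Agent.Results.MP_4011c3_nt.PrimeQEveryPair.Good m n s r q := by
      intro p hp hpr
      have h1 := g4 p (mem_pz.2 ⟨Nat.le_floor hpr, hp⟩)
      rw [Q3_iff] at h1
      push Not at h1
      exact h1
    obtain ⟨f1, f2, f3⟩ := H2 q g3.two_le hlt hgood
    have hmq : 0 < m * q := Nat.mul_pos hm1 g3.pos
    exact ⟨by omega, f1.symm, f2, f3⟩
  · rw [hsol, Set.ncard_coe_finset]
    exact k2
  · rw [hsol, Set.ncard_coe_finset]
    have hsub : SP (Q (s3 (n - s) m)) (yl r n) M \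
        (BP (Q (s3 (n - s) m)) (s3 (n - s) m 1) (yl r n) M ⌊(M : ℝ) ^ (1 / 2 + δ)⌋₊ ∪
        BP (Q (s3 (n - s) m)) (s3 (n - s) m 2) (yl r n) M ⌊(M : ℝ) ^ (1 / 2 + δ)⌋₊) ⊆
        (SP (Q (s3 (n - s) m)) (yl r n) M).filter (fun q : ℕ =>
          HasLarge ((q : ℝ) ^ (1 / 2 + δ / 2)) (n - s - m * q) ∧
            HasLarge ((q : ℝ) ^ (1 / 2 + δ / 2)) (q ^ 2 - 2)) := by
      intro q hq
      rw [Finset.mem_sdiff, mem_union, not_or] at hq
      obtain ⟨hq1, hq2, hq3⟩ := hq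
      rw [mem_filter]
      refine ⟨hq1, ?_⟩
      obtain ⟨⟨g1, g2⟩, g3, g4⟩ := mem_SP.1 hq1
      have hlt := lt_of m n s q hm1 (by rw [← hM]; exact g1) (by rw [← hM]; exact g2)
      have hqM : (q : ℝ) ^ (1 / 2 + δ / 2) ≤ (M : ℝ) ^ (1 / 2 + δ) := by
        have h1 : (q : ℝ) ≤ 2 * M := by exact_mod_cast g2
        have h2 : (2 : ℝ) ≤ (M : ℝ) ^ (δ / 2) := by
          have h3 : (2 : ℝ) ^ (2 / δ) ≤ M := by linarith
          have h4 := Real.rpow_le_rpow (by positivity) h3 (show 0 ≤ δ / 2 by positivity)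
          rw [← Real.rpow_mul (by norm_num)] at h4
          have h5 : 2 / δ * (δ / 2) = 1 := by field_simp
          rwa [h5, Real.rpow_one] at h4
        have hδ8 : (2 : ℝ) ^ (1 / 2 + δ / 2) ≤ (M : ℝ) ^ (δ / 2) := by
          rcases le_or_gt δ 1 with h6 | h6
          · refine le_trans ?_ h2
            calc (2 : ℝ) ^ (1 / 2 + δ / 2) ≤ (2 : ℝ) ^ (1 : ℝ) :=
                  Real.rpow_le_rpow_of_exponent_le (by norm_num) (by linarith)
              _ = 2 := Real.rpow_one _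
          · exact absurd h6 (by linarith)
        calc (q : ℝ) ^ (1 / 2 + δ / 2) ≤ (2 * (M : ℝ)) ^ (1 / 2 + δ / 2) :=
              Real.rpow_le_rpow (Nat.cast_nonneg _) h1 (by positivity)
          _ = (2 : ℝ) ^ (1 / 2 + δ / 2) * (M : ℝ) ^ (1 / 2 + δ / 2) :=
              Real.mul_rpow (by norm_num) hMp.le
          _ ≤ (M : ℝ) ^ (δ / 2) * (M : ℝ) ^ (1 / 2 + δ / 2) :=
              mul_le_mul_of_nonneg_right hδ8 (by positivity)
          _ = (M : ℝ) ^ (1 / 2 + δ) := by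
              rw [← Real.rpow_add hMp]
              congr 1
              ring
      constructor
      · rw [BP, mem_filter] at hq3
        push Not at hq3
        obtain ⟨l, hl, hld, hlz⟩ := hq3 hq1
        rw [s3_eval2] at hld
        have h6 : ((n - s - m * q : ℕ) : ℤ) = ((n - s : ℕ) : ℤ) - m * q := by
          rw [Nat.cast_sub hlt.le]
          push_cast
          ring
        rw [← h6] at hld
        refine ⟨l, hl, by exact_mod_cast hld, lt_of_le_of_lt hqM ?_⟩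
        exact Nat.lt_of_floor_lt hlz
      · rw [BP, mem_filter] at hq2
        push Not at hq2
        obtain ⟨l, hl, hld, hlz⟩ := hq2 hq1
        rw [s3_eval1] at hld
        have h6 : ((q ^ 2 - 2 : ℕ) : ℤ) = (q : ℤ) ^ 2 - 2 := by
          have : 2 ≤ q ^ 2 := by
            have := g3.two_le
            nlinarith
          rw [Nat.cast_sub this]
          push_cast
          ring
        rw [← h6] at hld
        refine ⟨l, hl, by exact_mod_cast hld, lt_of_le_of_lt hqM ?_⟩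
        exact Nat.lt_of_floor_lt hlz
    have e3 : {q : ℕ | q ∈ ((SP (Q (s3 (n - s) m)) (yl r n) M : Finset ℕ) : Set ℕ) ∧
        HasLarge ((q : ℝ) ^ (1 / 2 + δ / 2)) (n - s - m * q) ∧
        HasLarge ((q : ℝ) ^ (1 / 2 + δ / 2)) (q ^ 2 - 2)} =
        (((SP (Q (s3 (n - s) m)) (yl r n) M).filter (fun q : ℕ =>
          HasLarge ((q : ℝ) ^ (1 / 2 + δ / 2)) (n - s - m * q) ∧
            HasLarge ((q : ℝ) ^ (1 / 2 + δ / 2)) (q ^ 2 - 2)) : Finset ℕ) : Set ℕ) := by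
      ext q
      rw [Set.mem_ofPred_eq, Finset.mem_coe, Finset.mem_coe, mem_filter]
    rw [e3, Set.ncard_coe_finset]
    have h1 := card_le_card hsub
    have h2 := card_le_card_sdiff_add_card (s := SP (Q (s3 (n - s) m)) (yl r n) M)
      (t := BP (Q (s3 (n - s) m)) (s3 (n - s) m 1) (yl r n) M ⌊(M : ℝ) ^ (1 / 2 + δ)⌋₊ ∪
        BP (Q (s3 (n - s) m)) (s3 (n - s) m 2) (yl r n) M ⌊(M : ℝ) ^ (1 / 2 + δ)⌋₊)
    have h3 := card_union_le
      (BP (Q (s3 (n - s) m)) (s3 (n - s) m 1) (yl r n) M ⌊(M : ℝ) ^ (1 / 2 + δ)⌋₊)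
      (BP (Q (s3 (n - s) m)) (s3 (n - s) m 2) (yl r n) M ⌊(M : ℝ) ^ (1 / 2 + δ)⌋₊)
    have h4 := h2.trans (Nat.add_le_add h1 h3)
    have h5 : ((SP (Q (s3 (n - s) m)) (yl r n) M).card : ℝ) ≤
        (((SP (Q (s3 (n - s) m)) (yl r n) M).filter (fun q : ℕ =>
          HasLarge ((q : ℝ) ^ (1 / 2 + δ / 2)) (n - s - m * q) ∧
            HasLarge ((q : ℝ) ^ (1 / 2 + δ / 2)) (q ^ 2 - 2))).card : ℝ) +
        (((BP (Q (s3 (n - s) m)) (s3 (n - s) m 1) (yl r n) M ⌊(M : ℝ) ^ (1 / 2 + δ)⌋₊).card : ℝ) +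
        ((BP (Q (s3 (n - s) m)) (s3 (n - s) m 2) (yl r n) M ⌊(M : ℝ) ^ (1 / 2 + δ)⌋₊).card : ℝ)) := by
      exact_mod_cast h4
    linarith

end Pool.Agent.Results.MP_4011c3_nt.LargePrimeFactorsEveryPair
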